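import Mathlib

set_option autoImplicit false
set_option linter.unusedSectionVars false

/-!
The space of the null sequences of a Banach space; a space with a complemented copy of the space
of its null sequences is isomorphic to it.
-/

namespace Pool.Agent.Comb7f333f.XPart

open Filter Topology ZeroAtInfty

section

variable {X : Type*} [NormedAddCommGroup X] [NormedSpace ℝ X]

/-- A null sequence. -/
def mkC (f : ℕ → X) (hf : Tendsto f atTop (𝓝 0)) : C₀(ℕ, X) where
  toFun := f
  continuous_toFun := continuous_of_discreteTopology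
  zero_at_infty' := by
    rw [Filter.cocompact_eq_cofinite, Nat.cofinite_eq_atTop]
    exact hf

theorem mkC_apply (f : ℕ → X) (hf : Tendsto f atTop (𝓝 0)) (n : ℕ) : mkC f hf n = f n := rfl

theorem tendsto_C (f : C₀(ℕ, X)) : Tendsto (fun n => f n) atTop (𝓝 0) := by
  have h := f.zero_at_infty'
  rw [Filter.cocompact_eq_cofinite, Nat.cofinite_eq_atTop] at h
  exact h

theorem norm_apply_le (f : C₀(ℕ, X)) (n : ℕ) : ‖f n‖ ≤ ‖f‖ :=
  f.toBCF.norm_coe_le_norm n

theorem norm_le_C (f : C₀(ℕ, X)) {B : ℝ} (hB : 0 ≤ B) (h : ∀ n, ‖f n‖ ≤ B) : ‖f‖ ≤ B :=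
  (BoundedContinuousFunction.norm_le hB).2 h

/-- A bounded linear map into the space of the null sequences. -/
noncomputable def toC {E : Type*} [NormedAddCommGroup E] [NormedSpace ℝ E] (T : ℕ → E →L[ℝ] X)
    (hT : ∀ x, Tendsto (fun n => T n x) atTop (𝓝 0)) (K : ℝ) (hK : 0 ≤ K)
    (hT' : ∀ n x, ‖T n x‖ ≤ K * ‖x‖) : E →L[ℝ] C₀(ℕ, X) :=
  LinearMap.mkContinuous
    { toFun := fun x => mkC (fun n => T n x) (hT x)
      map_add' := fun x y => by
        ext n
        exact map_add (T n) x y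
      map_smul' := fun c x => by
        ext n
        exact map_smul (T n) c x } K
    (fun x => norm_le_C _ (mul_nonneg hK (norm_nonneg x)) fun n => hT' n x)

theorem toC_apply {E : Type*} [NormedAddCommGroup E] [NormedSpace ℝ E] (T : ℕ → E →L[ℝ] X)
    (hT : ∀ x, Tendsto (fun n => T n x) atTop (𝓝 0)) (K : ℝ) (hK : 0 ≤ K)
    (hT' : ∀ n x, ‖T n x‖ ≤ K * ‖x‖) (x : E) (n : ℕ) : toC T hT K hK hT' x n = T n x := rfl

/-- The evaluation. -/
noncomputable def evC (n : ℕ) : C₀(ℕ, X) →L[ℝ] X :=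
  LinearMap.mkContinuous
    { toFun := fun f => f n
      map_add' := fun _ _ => rfl
      map_smul' := fun _ _ => rfl } 1
    (fun f => by
      rw [one_mul]
      exact norm_apply_le f n)

theorem evC_apply (n : ℕ) (f : C₀(ℕ, X)) : evC n f = f n := rfl

/-- Reindexing by a function which tends to infinity. -/
noncomputable def reC (σ : ℕ → ℕ) (hσ : Tendsto σ atTop atTop) : C₀(ℕ, X) →L[ℝ] C₀(ℕ, X) :=
  toC (fun n => evC (σ n)) (fun f => (tendsto_C f).comp hσ) 1 zero_le_one (fun n f => by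
    rw [one_mul]
    exact norm_apply_le f _)

theorem reC_apply (σ : ℕ → ℕ) (hσ : Tendsto σ atTop atTop) (f : C₀(ℕ, X)) (n : ℕ) :
    reC σ hσ f n = f (σ n) := rfl

theorem tendsto_two : Tendsto (fun n : ℕ => 2 * n) atTop atTop :=
  tendsto_id.const_mul_atTop' (by norm_num)

theorem tendsto_two_one : Tendsto (fun n : ℕ => 2 * n + 1) atTop atTop :=
  tendsto_atTop_mono (fun n => by omega) tendsto_two

theorem tendsto_half : Tendsto (fun n : ℕ => n / 2) atTop atTop :=
  Nat.tendsto_div_const_atTop (by norm_num)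

/-- The inverse of the even and odd parts. -/
noncomputable def joinC : C₀(ℕ, X) × C₀(ℕ, X) →L[ℝ] C₀(ℕ, X) :=
  toC (fun n => if n % 2 = 0 then (evC (n / 2)).comp (ContinuousLinearMap.fst ℝ _ _) else
      (evC (n / 2)).comp (ContinuousLinearMap.snd ℝ _ _))
    (fun p => by
      have h1 := ((tendsto_C p.1).comp tendsto_half).norm
      have h2 := ((tendsto_C p.2).comp tendsto_half).norm
      have h3 := h1.add h2
      rw [norm_zero, add_zero] at h3
      refine squeeze_zero_norm (fun n => ?_) h3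
      show ‖(if n % 2 = 0 then (evC (n / 2)).comp (ContinuousLinearMap.fst ℝ _ _) else
        (evC (n / 2)).comp (ContinuousLinearMap.snd ℝ _ _)) p‖ ≤ ‖p.1 (n / 2)‖ + ‖p.2 (n / 2)‖
      split_ifs
      · show ‖p.1 (n / 2)‖ ≤ _
        linarith [norm_nonneg (p.2 (n / 2))]
      · show ‖p.2 (n / 2)‖ ≤ _
        linarith [norm_nonneg (p.1 (n / 2))])
    1 zero_le_one (fun n p => by
      rw [one_mul]
      split_ifs
      · exact (norm_apply_le p.1 _).trans (norm_fst_le p)
      · exact (norm_apply_le p.2 _).trans (norm_snd_le p))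

theorem joinC_apply (p : C₀(ℕ, X) × C₀(ℕ, X)) (n : ℕ) :
    joinC p n = if n % 2 = 0 then p.1 (n / 2) else p.2 (n / 2) := by
  show (if n % 2 = 0 then (evC (n / 2)).comp (ContinuousLinearMap.fst ℝ _ _) else
    (evC (n / 2)).comp (ContinuousLinearMap.snd ℝ _ _)) p = _
  split_ifs <;> rfl

/-- The square of the space of the null sequences is isomorphic to the space. -/
noncomputable def sqC : C₀(ℕ, X) ≃L[ℝ] C₀(ℕ, X) × C₀(ℕ, X) :=
  ContinuousLinearEquiv.equivOfInverse
    ((reC (fun n => 2 * n) tendsto_two).prod (reC (fun n => 2 * n + 1) tendsto_two_one)) joinC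
    (fun f => by
      ext n
      rw [joinC_apply]
      show (if n % 2 = 0 then f (2 * (n / 2)) else f (2 * (n / 2) + 1)) = f n
      split_ifs with h
      · congr 1; omega
      · congr 1; omega)
    (fun p => by
      refine Prod.ext ?_ ?_
      · ext n
        show joinC p (2 * n) = p.1 n
        rw [joinC_apply, if_pos (by omega)]
        congr 1; omega
      · ext n
        show joinC p (2 * n + 1) = p.2 n
        rw [joinC_apply, if_neg (by omega)]
        congr 1; omega)

/-- A sequence with a given first term and given other terms. -/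
noncomputable def consC : X × C₀(ℕ, X) →L[ℝ] C₀(ℕ, X) :=
  toC (fun n => if n = 0 then ContinuousLinearMap.fst ℝ _ _ else
      (evC (n - 1)).comp (ContinuousLinearMap.snd ℝ _ _))
    (fun p => by
      have h1 := (tendsto_C p.2).comp (tendsto_sub_atTop_nat 1)
      refine h1.congr' ?_
      filter_upwards [eventually_gt_atTop 0] with n hn
      show p.2 (n - 1) = (if n = 0 then ContinuousLinearMap.fst ℝ _ _ else
        (evC (n - 1)).comp (ContinuousLinearMap.snd ℝ _ _)) p
      rw [if_neg (by omega)]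
      rfl)
    1 zero_le_one (fun n p => by
      rw [one_mul]
      split_ifs
      · exact norm_fst_le p
      · exact (norm_apply_le p.2 _).trans (norm_snd_le p))

theorem consC_zero (p : X × C₀(ℕ, X)) : consC p 0 = p.1 := by
  show (if 0 = 0 then ContinuousLinearMap.fst ℝ _ _ else
    (evC (0 - 1)).comp (ContinuousLinearMap.snd ℝ _ _)) p = _
  rw [if_pos rfl]
  rfl

theorem consC_succ (p : X × C₀(ℕ, X)) (n : ℕ) : consC p (n + 1) = p.2 n := by
  show (if n + 1 = 0 then ContinuousLinearMap.fst ℝ _ _ else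
    (evC (n + 1 - 1)).comp (ContinuousLinearMap.snd ℝ _ _)) p = _
  rw [if_neg (by omega)]
  rfl

/-- The space of the null sequences is isomorphic to its product with the space. -/
noncomputable def headC : C₀(ℕ, X) ≃L[ℝ] X × C₀(ℕ, X) :=
  ContinuousLinearEquiv.equivOfInverse
    ((evC 0).prod (reC (fun n => n + 1) (tendsto_add_atTop_nat 1))) consC
    (fun f => by
      ext n
      cases n with
      | zero => rw [consC_zero]; rfl
      | succ n => rw [consC_succ]; rfl)
    (fun p => by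
      refine Prod.ext ?_ ?_
      · exact consC_zero p
      · ext n
        exact consC_succ p n)

/-- The decomposition method of Pelczynski. -/
theorem iso_of_complemented (J : C₀(ℕ, X) →L[ℝ] X) (Q : X →L[ℝ] C₀(ℕ, X))
    (h : ∀ f, Q (J f) = f) : Nonempty (X ≃L[ℝ] C₀(ℕ, X)) := by
  let K := Q.ker
  let e1 : X ≃L[ℝ] C₀(ℕ, X) × K := ContinuousLinearEquiv.equivOfRightInverse Q J h
  let e2 : C₀(ℕ, X) ≃L[ℝ] X × C₀(ℕ, X) := headC
  let e3 : (X × C₀(ℕ, X)) ≃L[ℝ] (C₀(ℕ, X) × K) × C₀(ℕ, X) :=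
    e1.prodCongr (ContinuousLinearEquiv.refl ℝ _)
  let e4 : ((C₀(ℕ, X) × K) × C₀(ℕ, X)) ≃L[ℝ] (K × C₀(ℕ, X)) × C₀(ℕ, X) :=
    (ContinuousLinearEquiv.prodComm ℝ _ _).prodCongr (ContinuousLinearEquiv.refl ℝ _)
  let e5 : ((K × C₀(ℕ, X)) × C₀(ℕ, X)) ≃L[ℝ] K × (C₀(ℕ, X) × C₀(ℕ, X)) :=
    ContinuousLinearEquiv.prodAssoc ℝ _ _ _
  let e6 : (K × (C₀(ℕ, X) × C₀(ℕ, X))) ≃L[ℝ] K × C₀(ℕ, X) :=
    (ContinuousLinearEquiv.refl ℝ _).prodCongr sqC.symm
  let e7 : (K × C₀(ℕ, X)) ≃L[ℝ] C₀(ℕ, X) × K := ContinuousLinearEquiv.prodComm ℝ _ _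
  exact ⟨(((((((e2.trans e3).trans e4).trans e5).trans e6).trans e7).trans e1.symm)).symm⟩

end

end Pool.Agent.Comb7f333f.XPart
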