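import Pool.Agent.Lib.MP_7f333f_an.Ex.Defs
import Pool.Agent.Lib.MP_7f333f_an.Blocks

set_option autoImplicit false

/-!
The norms of the combinations of the averages over the blocks.
-/

namespace Pool.Agent.Comb7f333f.XPart

open Finset

/-- A dominated set covers only a small part of the inactive blocks. -/
theorem capture {b : ℕ → ℕ} {C A : Finset ℕ} (h : Dom b C A) (n : ℕ) :
    (A ∩ blk n).card ≤ st n + if (∃ R ∈ C, b R = n) then ln n else 0 := by
  classical
  obtain ⟨φ, h1, h2⟩ := h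
  set A1 := (A ∩ blk n).filter (fun a => φ a < st n) with hA1
  set A2 := (A ∩ blk n).filter (fun a => ¬ φ a < st n) with hA2
  have hsplit : (A ∩ blk n).card = A1.card + A2.card :=
    (card_filter_add_card_filter_not _).symm
  have hA1c : A1.card ≤ st n := by
    have e1 : A1.card ≤ (range (st n)).card := by
      refine card_le_card_of_injOn φ (fun a ha => ?_) (h1.mono fun a ha => ?_)
      · have ha' := Finset.mem_coe.1 ha
        simp only [hA1, mem_filter] at ha'
        exact Finset.mem_coe.2 (mem_range.2 ha'.2)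
      · have ha' := Finset.mem_coe.1 ha
        simp only [hA1, mem_filter, mem_inter] at ha'
        exact Finset.mem_coe.2 ha'.1.1
    rwa [card_range] at e1
  have hA2c : A2.card ≤ if (∃ R ∈ C, b R = n) then ln n else 0 := by
    rcases A2.eq_empty_or_nonempty with he | ⟨a, ha⟩
    · rw [he, card_empty]
      exact Nat.zero_le _
    · have hact : ∃ R ∈ C, b R = n := by
        simp only [hA2, mem_filter, mem_inter, not_lt] at ha
        obtain ⟨e1, R, hR, e2⟩ := h2 a ha.1.1
        refine ⟨R, hR, blk_inj e2 ?_⟩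
        have e3 := mem_blk.1 ha.1.2
        exact mem_blk.2 ⟨ha.2, by omega⟩
      rw [if_pos hact, ← card_blk n]
      refine card_le_card fun a ha => ?_
      simp only [hA2, mem_filter, mem_inter] at ha
      exact ha.1.2
  omega

/-- The average over a block. -/
noncomputable def uv (n : ℕ) : ℕ →₀ ℝ :=
  Finsupp.onFinset (blk n) (fun k => if k ∈ blk n then (ln n : ℝ)⁻¹ else 0) (by
    intro k hk
    by_contra h
    exact hk (if_neg h))

theorem uv_apply (n k : ℕ) : uv n k = if k ∈ blk n then (ln n : ℝ)⁻¹ else 0 := rfl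

theorem ln_pos' (n : ℕ) : (0 : ℝ) < ln n := by exact_mod_cast ln_pos n

theorem sum_uv (n : ℕ) : ∑ k ∈ blk n, uv n k = 1 := by
  have h1 : ∀ k ∈ blk n, uv n k = (ln n : ℝ)⁻¹ := fun k hk => by rw [uv_apply, if_pos hk]
  rw [sum_congr rfl h1, sum_const, card_blk, nsmul_eq_mul, mul_inv_cancel₀ (ln_pos' n).ne']

theorem sum_uv_ne {m n : ℕ} (h : m ≠ n) : ∑ k ∈ blk m, uv n k = 0 :=
  sum_eq_zero fun k hk => by
    rw [uv_apply, if_neg]
    exact fun hk' => h (blk_inj hk hk')

/-- The sum over a set of the absolute values of an average. -/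
theorem sum_abs_uv (A : Finset ℕ) (n : ℕ) :
    ∑ k ∈ A, |uv n k| = ((A ∩ blk n).card : ℝ) * (ln n : ℝ)⁻¹ := by
  have h1 : ∀ k ∈ A, |uv n k| = if k ∈ blk n then (ln n : ℝ)⁻¹ else 0 := by
    intro k _
    rw [uv_apply]
    split_ifs
    · exact abs_of_pos (inv_pos.mpr (ln_pos' n))
    · exact abs_zero
  rw [sum_congr rfl h1, ← sum_filter, sum_const, nsmul_eq_mul, filter_mem_eq_inter]

theorem st_mul_inv_ln (n : ℕ) : (st n : ℝ) * (ln n : ℝ)⁻¹ = (1 / 2) ^ (n + 2) := by
  have h1 : (0 : ℝ) < st n := by exact_mod_cast st_pos n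
  unfold ln
  push_cast
  rw [mul_inv, one_div, inv_pow]
  field_simp

/-- The combinations of the averages over the blocks. -/
noncomputable def bsum (g : ℕ →₀ ℝ) : ℕ →₀ ℝ := Finsupp.linearCombination ℝ uv g

/-- The norms of the combinations of the averages over the blocks. -/
theorem combNorm_bsum {𝓚 : Set (Finset ℕ)} (g : ℕ →₀ ℝ) (S : ℝ) (hS0 : 0 ≤ S)
    (hS : ∀ n, |g n| ≤ S)
    (hev : ∀ c, ∀ C ∈ exF 𝓚, ∑ R ∈ C, |g (ev c R)| ≤ S)
    (hod : ∀ C ∈ 𝓚, ∑ k ∈ C, |g (od k)| ≤ S) : combNorm (exF 𝓚) (bsum g) ≤ 2 * S := by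
  classical
  refine combNorm_le _ (by positivity) fun A hA => ?_
  -- the coordinates
  have hval : ∀ k, |bsum g k| ≤ ∑ n ∈ g.support, |g n| * |uv n k| := by
    intro k
    have h1 : bsum g k = ∑ n ∈ g.support, g n * uv n k := by
      unfold bsum
      rw [Finsupp.linearCombination_apply, Finsupp.sum, Finsupp.finsetSum_apply]
      exact sum_congr rfl fun n _ => by rw [Finsupp.smul_apply, smul_eq_mul]
    rw [h1]
    refine (abs_sum_le_sum_abs _ _).trans (le_of_eq (sum_congr rfl fun n _ => abs_mul _ _))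
  have hsum : ∑ k ∈ A, |bsum g k| ≤
      ∑ n ∈ g.support, |g n| * (((A ∩ blk n).card : ℝ) * (ln n : ℝ)⁻¹) := by
    refine (sum_le_sum fun k _ => hval k).trans (le_of_eq ?_)
    rw [sum_comm]
    refine sum_congr rfl fun n _ => ?_
    rw [← mul_sum, sum_abs_uv]
  refine hsum.trans ?_
  -- the small parts
  have hsmall : ∑ n ∈ g.support, |g n| * ((1 / 2 : ℝ) ^ (n + 2)) ≤ S := by
    have h1 : ∀ n ∈ g.support, |g n| * ((1 / 2 : ℝ) ^ (n + 2)) ≤ S * (1 / 2 : ℝ) ^ (n + 1) := by
      intro n _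
      have h2 : (0 : ℝ) < (1 / 2) ^ (n + 1) := by positivity
      have h3 : ((1 : ℝ) / 2) ^ (n + 2) ≤ (1 / 2) ^ (n + 1) := by
        rw [pow_succ _ (n + 1)]
        linarith
      exact mul_le_mul (hS n) h3 (by positivity) hS0
    refine (sum_le_sum h1).trans ?_
    rw [← mul_sum]
    exact mul_le_of_le_one_right hS0 (sum_half_pow_le _)
  -- the general estimate
  have hgen : ∀ (b : ℕ → ℕ) (C : Finset ℕ), Function.Injective b → Dom b C A →
      ∑ R ∈ C, |g (b R)| ≤ S →
      ∑ n ∈ g.support, |g n| * (((A ∩ blk n).card : ℝ) * (ln n : ℝ)⁻¹) ≤ 2 * S := by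
    intro b C hb hdom hC
    have h1 : ∀ n ∈ g.support, |g n| * (((A ∩ blk n).card : ℝ) * (ln n : ℝ)⁻¹) ≤
        |g n| * ((1 / 2 : ℝ) ^ (n + 2)) + if n ∈ C.image b then |g n| else 0 := by
      intro n _
      have h2 := capture hdom n
      have h3 : (0 : ℝ) < (ln n : ℝ)⁻¹ := inv_pos.mpr (ln_pos' n)
      have hmem : n ∈ C.image b ↔ ∃ R ∈ C, b R = n := mem_image
      by_cases hact : ∃ R ∈ C, b R = n
      · rw [if_pos hact] at h2
        rw [if_pos (hmem.2 hact)]
        have h4 : ((A ∩ blk n).card : ℝ) ≤ st n + ln n := by exact_mod_cast h2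
        have h5 : ((A ∩ blk n).card : ℝ) * (ln n : ℝ)⁻¹ ≤ (1 / 2 : ℝ) ^ (n + 2) + 1 := by
          have h6 := mul_le_mul_of_nonneg_right h4 h3.le
          rw [add_mul, st_mul_inv_ln, mul_inv_cancel₀ (ln_pos' n).ne'] at h6
          exact h6
        calc |g n| * (((A ∩ blk n).card : ℝ) * (ln n : ℝ)⁻¹) ≤
            |g n| * ((1 / 2 : ℝ) ^ (n + 2) + 1) := mul_le_mul_of_nonneg_left h5 (abs_nonneg _)
          _ = _ := by ring
      · rw [if_neg hact] at h2
        rw [if_neg (fun h => hact (hmem.1 h)), add_zero]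
        have h4 : ((A ∩ blk n).card : ℝ) ≤ st n := by exact_mod_cast h2
        have h5 := mul_le_mul_of_nonneg_right h4 h3.le
        rw [st_mul_inv_ln] at h5
        exact mul_le_mul_of_nonneg_left h5 (abs_nonneg _)
    refine (sum_le_sum h1).trans ?_
    rw [sum_add_distrib]
    have h2 : ∑ n ∈ g.support, (if n ∈ C.image b then |g n| else 0) ≤ S := by
      rw [← sum_filter]
      refine le_trans (sum_le_sum_of_subset_of_nonneg (t := C.image b) (fun n hn =>
        (mem_filter.1 hn).2) fun _ _ _ => abs_nonneg _) ?_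
      rw [sum_image hb.injOn]
      exact hC
    linarith
  rcases exF_cases hA with h | ⟨C, hC, c, h⟩ | ⟨C, hC, h⟩
  · have h1 : ∀ n ∈ g.support, |g n| * (((A ∩ blk n).card : ℝ) * (ln n : ℝ)⁻¹) ≤
        |g n| * ((1 / 2 : ℝ) ^ (n + 2)) := by
      intro n _
      have h3 : (0 : ℝ) < (ln n : ℝ)⁻¹ := inv_pos.mpr (ln_pos' n)
      have h2 : (A ∩ blk n).card ≤ st n := by
        have e1 := card_le_card (inter_subset_left (s₁ := A) (s₂ := blk n))
        have e2 := st_pos n
        omega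
      have h4 : ((A ∩ blk n).card : ℝ) ≤ st n := by exact_mod_cast h2
      have h5 := mul_le_mul_of_nonneg_right h4 h3.le
      rw [st_mul_inv_ln] at h5
      exact mul_le_mul_of_nonneg_left h5 (abs_nonneg _)
    have h2 := (sum_le_sum h1).trans hsmall
    linarith
  · exact hgen (ev c) C (ev_injective c) h (hev c C hC)
  · exact hgen od C od_injective h (hod C hC)

end Pool.Agent.Comb7f333f.XPart
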