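import Pool.Agent.Lib.MP_7f333f_an.Tame.SchReg

set_option autoImplicit false

/-!
Regular families whose combinatorial spaces contain complemented copies of their own `c₀`-sums and
of the combinatorial space of a given regular family.
-/

namespace Pool.Agent.Comb7f333f.XPart

/-- The starts of the blocks. -/
def st : ℕ → ℕ
  | 0 => 1
  | n + 1 => st n + 2 ^ (n + 2) * st n

/-- The lengths of the blocks. -/
def ln (n : ℕ) : ℕ := 2 ^ (n + 2) * st n

theorem st_succ (n : ℕ) : st (n + 1) = st n + ln n := rfl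

theorem st_pos (n : ℕ) : 0 < st n := by
  induction n with
  | zero => exact Nat.one_pos
  | succ n ih => rw [st_succ]; omega

theorem ln_pos (n : ℕ) : 0 < ln n := Nat.mul_pos (by positivity) (st_pos n)

theorem st_lt_succ (n : ℕ) : st n < st (n + 1) := by
  rw [st_succ]
  have := ln_pos n
  omega

theorem st_strictMono : StrictMono st := strictMono_nat_of_lt_succ st_lt_succ

theorem lt_st (n : ℕ) : n < st n := by
  induction n with
  | zero => exact st_pos 0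
  | succ n ih => have := st_lt_succ n; omega

/-- The blocks. -/
def blk (n : ℕ) : Finset ℕ := Finset.Ico (st n) (st (n + 1))

theorem mem_blk {n k : ℕ} : k ∈ blk n ↔ st n ≤ k ∧ k < st (n + 1) := Finset.mem_Ico

theorem card_blk (n : ℕ) : (blk n).card = ln n := by
  rw [blk, Nat.card_Ico, st_succ]
  omega

theorem blk_inj {m n k : ℕ} (h1 : k ∈ blk m) (h2 : k ∈ blk n) : m = n := by
  rw [mem_blk] at h1 h2
  rcases lt_trichotomy m n with h | h | h
  · have := st_strictMono.monotone (show m + 1 ≤ n from h)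
    omega
  · exact h
  · have := st_strictMono.monotone (show n + 1 ≤ m from h)
    omega

/-- The set `A` is dominated by a subset of the union of the blocks `b R`, `R ∈ C`. -/
def Dom (b : ℕ → ℕ) (C A : Finset ℕ) : Prop :=
  ∃ φ : ℕ → ℕ, Set.InjOn φ A ∧ ∀ a ∈ A, φ a ≤ a ∧ ∃ R ∈ C, φ a ∈ blk (b R)

/-- The blocks of the first kind. -/
def ev (c R : ℕ) : ℕ := 2 * Nat.pair c R

/-- The blocks of the second kind. -/
def od (k : ℕ) : ℕ := 2 * k + 1

/-- The family generated by `𝓚`. -/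
inductive ExF (𝓚 : Set (Finset ℕ)) : Finset ℕ → Prop
  | small (A : Finset ℕ) : A.card ≤ 1 → ExF 𝓚 A
  | even (A C : Finset ℕ) (c : ℕ) : ExF 𝓚 C → Dom (ev c) C A → ExF 𝓚 A
  | odd (A C : Finset ℕ) : C ∈ 𝓚 → Dom od C A → ExF 𝓚 A

/-- The family generated by `𝓚`, as a set. -/
def exF (𝓚 : Set (Finset ℕ)) : Set (Finset ℕ) := {A | ExF 𝓚 A}

theorem ev_injective (c : ℕ) : Function.Injective (ev c) := by
  intro R R' h
  unfold ev at h
  have h1 : Nat.pair c R = Nat.pair c R' := by omega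
  exact (Nat.pair_eq_pair.1 h1).2

theorem ev_eq {c R c' R' : ℕ} (h : ev c R = ev c' R') : c = c' ∧ R = R' := by
  unfold ev at h
  have h1 : Nat.pair c R = Nat.pair c' R' := by omega
  exact Nat.pair_eq_pair.1 h1

theorem od_injective : Function.Injective od := by
  intro R R' h
  unfold od at h
  omega

theorem ev_ne_od (c R k : ℕ) : ev c R ≠ od k := by
  unfold ev od
  omega

theorem ev_or_od (n : ℕ) : (∃ c R, n = ev c R) ∨ ∃ k, n = od k := by
  rcases Nat.even_or_odd' n with ⟨k, rfl | rfl⟩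
  · left
    refine ⟨(Nat.unpair k).1, (Nat.unpair k).2, ?_⟩
    unfold ev
    rw [Nat.pair_unpair]
  · right
    exact ⟨k, rfl⟩

theorem le_ev (c R : ℕ) : c ≤ ev c R ∧ R ≤ ev c R := by
  have h1 := Nat.left_le_pair c R
  have h2 := Nat.right_le_pair c R
  unfold ev
  omega

theorem dom_subset {b : ℕ → ℕ} {C A A' : Finset ℕ} (h : Dom b C A) (hA : A' ⊆ A) :
    Dom b C A' := by
  obtain ⟨φ, h1, h2⟩ := h
  exact ⟨φ, h1.mono (by exact_mod_cast hA), fun a ha => h2 a (hA ha)⟩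

theorem dom_image {b : ℕ → ℕ} {C A : Finset ℕ} (h : Dom b C A) (ψ : ℕ → ℕ)
    (hψ : Set.InjOn ψ A) (hψ' : ∀ s ∈ A, s ≤ ψ s) : Dom b C (A.image ψ) := by
  classical
  obtain ⟨φ, h1, h2⟩ := h
  have hinv : ∀ s ∈ A, Function.invFunOn ψ A (ψ s) = s := fun s hs =>
    hψ.leftInvOn_invFunOn (Finset.mem_coe.2 hs)
  refine ⟨fun x => φ (Function.invFunOn ψ A x), ?_, ?_⟩
  · intro x hx y hy hxy
    obtain ⟨s, hs, rfl⟩ := Finset.mem_image.1 (Finset.mem_coe.1 hx)
    obtain ⟨t, ht, rfl⟩ := Finset.mem_image.1 (Finset.mem_coe.1 hy)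
    simp only [hinv s hs, hinv t ht] at hxy
    rw [h1 (Finset.mem_coe.2 hs) (Finset.mem_coe.2 ht) hxy]
  · intro x hx
    obtain ⟨s, hs, rfl⟩ := Finset.mem_image.1 hx
    simp only [hinv s hs]
    exact ⟨(h2 s hs).1.trans (hψ' s hs), (h2 s hs).2⟩

theorem dom_blocks (b : ℕ → ℕ) (C : Finset ℕ) : Dom b C (C.biUnion fun R => blk (b R)) :=
  ⟨id, Function.injective_id.injOn, fun a ha => ⟨le_rfl, by
    obtain ⟨R, hR, ha⟩ := Finset.mem_biUnion.1 ha
    exact ⟨R, hR, ha⟩⟩⟩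

theorem exF_small {𝓚 : Set (Finset ℕ)} {A : Finset ℕ} (h : A.card ≤ 1) : A ∈ exF 𝓚 :=
  ExF.small A h

theorem exF_even {𝓚 : Set (Finset ℕ)} {A C : Finset ℕ} {c : ℕ} (hC : C ∈ exF 𝓚)
    (h : Dom (ev c) C A) : A ∈ exF 𝓚 := ExF.even A C c hC h

theorem exF_odd {𝓚 : Set (Finset ℕ)} {A C : Finset ℕ} (hC : C ∈ 𝓚)
    (h : Dom od C A) : A ∈ exF 𝓚 := ExF.odd A C hC h

theorem exF_cases {𝓚 : Set (Finset ℕ)} {A : Finset ℕ} (h : A ∈ exF 𝓚) : A.card ≤ 1 ∨
    (∃ C ∈ exF 𝓚, ∃ c, Dom (ev c) C A) ∨ ∃ C ∈ 𝓚, Dom od C A := by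
  cases h with
  | small _ h => exact Or.inl h
  | even _ C c hC h => exact Or.inr (Or.inl ⟨C, hC, c, h⟩)
  | odd _ C hC h => exact Or.inr (Or.inr ⟨C, hC, h⟩)

theorem exF_hered {𝓚 : Set (Finset ℕ)} {A A' : Finset ℕ} (h : A ∈ exF 𝓚) (hA : A' ⊆ A) :
    A' ∈ exF 𝓚 := by
  rcases exF_cases h with h1 | ⟨C, hC, c, h1⟩ | ⟨C, hC, h1⟩
  · exact exF_small ((Finset.card_le_card hA).trans h1)
  · exact exF_even hC (dom_subset h1 hA)
  · exact exF_odd hC (dom_subset h1 hA)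

end Pool.Agent.Comb7f333f.XPart
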