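import Pool.Agent.Lib.MP_7f333f_an.Ex.Ops
import Pool.Agent.Lib.MP_7f333f_an.Ex.CZ

set_option autoImplicit false

/-!
The combinatorial space of the new family is isomorphic to the space of its null sequences.
-/

namespace Pool.Agent.Comb7f333f.XPart

open Filter Topology ZeroAtInfty

section

variable {𝓚 : Set (Finset ℕ)} {X : Type*} [NormedAddCommGroup X] [NormedSpace ℝ X]
  [CompleteSpace X] {e : ℕ → X}

theorem exists_JQ (hK : IsRegular 𝓚) (hX : IsCombSpace (exF 𝓚) e) :
    ∃ (J : C₀(ℕ, X) →L[ℝ] X) (Q : X →L[ℝ] C₀(ℕ, X)), ∀ f, Q (J f) = f := by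
  classical
  set ι := Finsupp.linearCombination ℝ e with hι
  have hD := fun c : ℕ => exists_ext hX hX (dn (ev c)) 1 (fun a => by
    rw [one_mul]
    exact combNorm_dn (ev_injective c) (fun C hC => mem_exF_blocks_ev hC c) a)
  choose D hD1 hD2 using hD
  have hV := fun c : ℕ => exists_ext hX hX (up (ev c)) 2 (fun a => by
    have h1 := combNorm_sum_up hK {c} (fun _ => a) (combNorm (exF 𝓚) a) (combNorm_nonneg _ _)
      (fun _ _ => le_rfl)
    rwa [Finset.sum_singleton] at h1)
  choose V hV1 hV2 using hV
  have hDV : ∀ c c' x, D c (V c' x) = if c = c' then x else 0 := by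
    intro c c' x
    have hcl : IsClosed {x | D c (V c' x) = if c = c' then x else 0} := by
      refine isClosed_eq ((D c).continuous.comp (V c').continuous) ?_
      split_ifs
      · exact continuous_id
      · exact continuous_const
    refine hX.dense.induction_on x hcl fun a => ?_
    show D c (V c' (ι a)) = if c = c' then ι a else 0
    rw [hV1, hD1]
    split_ifs with h
    · rw [h, dn_up (ev_injective c')]
    · rw [dn_up_ne (ev_injective c) (fun R R' hR => h (ev_eq hR).1), map_zero]
  -- sums
  have hsum : ∀ (s : Finset ℕ) (x : ℕ → X) (B : ℝ), 0 ≤ B → (∀ c ∈ s, ‖x c‖ ≤ B) →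
      ‖∑ c ∈ s, V c (x c)‖ ≤ 2 * B := by
    intro s x B hB hx
    refine le_of_forall_pos_le_add fun ε hε => ?_
    set δ := ε / (2 + 2 * s.card) with hδ
    have hδ0 : 0 < δ := by positivity
    choose f hf using fun c => hX.dense.exists_dist_lt (x c) hδ0
    have h1 : ∑ c ∈ s, V c (x c) = ι (∑ c ∈ s, up (ev c) (f c)) +
        ∑ c ∈ s, V c (x c - ι (f c)) := by
      rw [map_sum, ← Finset.sum_add_distrib]
      refine Finset.sum_congr rfl fun c _ => ?_
      rw [map_sub, hV1]
      abel
    have h2 : ‖ι (∑ c ∈ s, up (ev c) (f c))‖ ≤ 2 * (B + δ) := by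
      rw [hX.norm_eq]
      refine combNorm_sum_up hK s f (B + δ) (by linarith) fun c hc => ?_
      rw [← hX.norm_eq]
      have h3 := hf c
      rw [dist_eq_norm] at h3
      have h4 : ι (f c) = x c - (x c - ι (f c)) := by abel
      show ‖ι (f c)‖ ≤ B + δ
      rw [h4]
      refine (norm_sub_le _ _).trans ?_
      exact add_le_add (hx c hc) h3.le
    have h3 : ‖∑ c ∈ s, V c (x c - ι (f c))‖ ≤ s.card * (2 * δ) := by
      refine (norm_sum_le _ _).trans ?_
      rw [← nsmul_eq_mul]
      refine Finset.sum_le_card_nsmul _ _ _ fun c _ => ?_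
      refine (hV2 c _).trans ?_
      have h4 := hf c
      rw [dist_eq_norm] at h4
      linarith
    rw [h1]
    refine (norm_add_le _ _).trans ?_
    have h4 : δ * (2 + 2 * s.card) = ε := by
      rw [hδ]
      exact div_mul_cancel₀ _ (by positivity)
    nlinarith
  have hsm : ∀ f : C₀(ℕ, X), Summable fun c => V c (f c) := by
    intro f
    rw [summable_iff_vanishing_norm]
    intro ε hε
    have h1 := (tendsto_C f).norm
    rw [norm_zero] at h1
    obtain ⟨n, hn⟩ := eventually_atTop.mp
      (h1.eventually (gt_mem_nhds (show (0 : ℝ) < ε / 3 by positivity)))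
    refine ⟨Finset.range n, fun t ht => ?_⟩
    refine lt_of_le_of_lt (hsum t (fun c => f c) (ε / 3) (by positivity) fun j hj => ?_)
      (by linarith)
    refine (hn j ?_).le
    by_contra hcon
    push Not at hcon
    exact Finset.disjoint_left.mp ht hj (Finset.mem_range.mpr hcon)
  let J : C₀(ℕ, X) →L[ℝ] X := LinearMap.mkContinuous
    { toFun := fun f => ∑' c, V c (f c)
      map_add' := fun f g => by
        rw [← (hsm f).tsum_add (hsm g)]
        refine tsum_congr fun c => ?_
        exact map_add (V c) (f c) (g c)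
      map_smul' := fun r f => by
        rw [RingHom.id_apply, ← (hsm f).tsum_const_smul]
        refine tsum_congr fun c => ?_
        exact map_smul (V c) r (f c) } 2
    (fun f => by
      refine le_of_tendsto (hsm f).hasSum.norm (Filter.Eventually.of_forall fun s => ?_)
      exact hsum s (fun c => f c) ‖f‖ (norm_nonneg f) fun c _ => norm_apply_le f c)
  have hJ : ∀ f, J f = ∑' c, V c (f c) := fun _ => rfl
  have hDt : ∀ x, Tendsto (fun c => D c x) atTop (𝓝 0) := by
    intro x
    rw [Metric.tendsto_atTop]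
    intro ε hε
    obtain ⟨a, ha⟩ := hX.dense.exists_dist_lt x hε
    refine ⟨a.support.sup id, fun c hc => ?_⟩
    have h0 : dn (ev c) a = 0 := by
      ext R
      rw [dn_apply (ev_injective c)]
      refine Finset.sum_eq_zero fun k hk => ?_
      by_contra hne
      have h1 : k ≤ a.support.sup id :=
        Finset.le_sup (f := id) (Finsupp.mem_support_iff.2 hne)
      have h2 := (mem_blk.1 hk).1
      have h3 := lt_st (ev c R)
      have h4 := (le_ev c R).1
      omega
    rw [dist_zero_right]
    have h1 : D c x = D c (x - ι a) := by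
      rw [map_sub, hD1, h0, map_zero, sub_zero]
    rw [h1]
    rw [dist_eq_norm] at ha
    have h2 := hD2 c (x - ι a)
    rw [one_mul] at h2
    exact h2.trans_lt ha
  refine ⟨J, toC D hDt 1 zero_le_one hD2, fun f => ?_⟩
  ext c
  rw [toC_apply, hJ, (D c).map_tsum (hsm f), tsum_eq_single c]
  · rw [hDV, if_pos rfl]
  · intro c' hc'
    rw [hDV, if_neg (Ne.symm hc')]

/-- The space is isomorphic to the space of its null sequences. -/
theorem iso_C (hK : IsRegular 𝓚) (hX : IsCombSpace (exF 𝓚) e) : Nonempty (X ≃L[ℝ] C₀(ℕ, X)) := by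
  obtain ⟨J, Q, h⟩ := exists_JQ hK hX
  exact iso_of_complemented J Q h

end

end Pool.Agent.Comb7f333f.XPart
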