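import Pool.Agent.Lib.MP_7f333f_an.Ex.Defs

set_option autoImplicit false

/-!
Regularity of the family.
-/

namespace Pool.Agent.Comb7f333f.XPart

open Filter

/-- The block which contains the image of a point. -/
theorem dom_hit {b : ℕ → ℕ} {C A : Finset ℕ} (h : Dom b C A) (L : ℕ) (B : Finset ℕ) (hB : B ⊆ A)
    (hcard : L < B.card) : ∃ a ∈ B, ∃ R ∈ C, L < st (b R + 1) ∧ b R < a := by
  classical
  obtain ⟨φ, h1, h2⟩ := h
  have h3 : ∃ a ∈ B, L ≤ φ a := by
    by_contra hcon
    push Not at hcon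
    have h4 : B.card ≤ (Finset.range L).card := by
      refine Finset.card_le_card_of_injOn φ (fun a ha => ?_) (h1.mono (by exact_mod_cast hB))
      exact Finset.mem_coe.2 (Finset.mem_range.2 (hcon a ha))
    rw [Finset.card_range] at h4
    omega
  obtain ⟨a, ha, haL⟩ := h3
  obtain ⟨h4, R, hR, h5⟩ := h2 a (hB ha)
  rw [mem_blk] at h5
  refine ⟨a, ha, R, hR, by omega, ?_⟩
  have := lt_st (b R)
  omega

/-- The limit of the sets of blocks: if the finite subsets of an infinite set are dominated by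
blocks whose indices form sets of a hereditary family, then this family contains all the finite
subsets of an infinite set. -/
theorem exists_limit (𝓓 : Set (Finset ℕ)) (h𝓓 : ∀ D ∈ 𝓓, ∀ D' ⊆ D, D' ∈ 𝓓)
    (I : Set ℕ) (hI : I.Infinite) (m : ℕ) (hm : m ∈ I)
    (U : Ultrafilter ℕ) (hU : (U : Filter ℕ) ≤ atTop)
    (D : ℕ → Finset ℕ) (b : ℕ → ℕ → ℕ) (hb : ∀ n R, R ≤ b n R)
    (hbound : ∀ β, ∃ L, ∀ n R, b n R < m → ∀ R' < β, b n R' + 1 ≤ L)
    (h : ∀ᶠ n in U, D n ∈ 𝓓 ∧ ∀ B : Finset ℕ, (B : Set ℕ) ⊆ I → (∀ a ∈ B, a < n) →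
      Dom (b n) (D n) B) :
    ∃ C : Set ℕ, C.Infinite ∧ (∀ T : Finset ℕ, (T : Set ℕ) ⊆ C → T ∈ 𝓓) ∧ ∃ R ∈ C, R < m := by
  classical
  -- windows
  have hwin : ∀ β : ℕ, ∃ β' : ℕ, ∀ᶠ n in U, ∃ R ∈ Finset.Ico β β', R ∈ D n := by
    intro β
    obtain ⟨L, hL⟩ := hbound β
    obtain ⟨B, hB1, hB2⟩ := hI.exists_subset_card_eq (st L + 1)
    set β' := (insert m B).sup id + 1 with hβ'
    refine ⟨β', ?_⟩
    filter_upwards [h, hU (eventually_ge_atTop β')] with n hn hnβ
    have hsub : ((insert m B : Finset ℕ) : Set ℕ) ⊆ I := by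
      rw [Finset.coe_insert]
      exact Set.insert_subset hm hB1
    have hlt : ∀ a ∈ insert m B, a < β' := by
      intro a ha
      have : a ≤ (insert m B).sup id := Finset.le_sup (f := id) ha
      omega
    have hdom := hn.2 (insert m B) hsub fun a ha => (hlt a ha).trans_le hnβ
    -- the block of the least element
    obtain ⟨a, ha, R0, hR0, -, hR0m⟩ := dom_hit hdom 0 {m} (by simp) (by simp)
    rw [Finset.mem_singleton] at ha
    rw [ha] at hR0m
    -- a late block
    obtain ⟨a, ha, R, hR, hR1, hR2⟩ := dom_hit hdom (st L) B (Finset.subset_insert m B) (by omega)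
    refine ⟨R, Finset.mem_Ico.2 ⟨?_, ?_⟩, hR⟩
    · by_contra hcon
      push Not at hcon
      have h1 := hL n R0 hR0m R hcon
      have h2 := st_strictMono.monotone h1
      omega
    · have h1 := hb n R
      have h2 := hlt a (Finset.mem_insert_of_mem ha)
      omega
  have hwin0 : ∀ᶠ n in U, ∃ R ∈ Finset.range m, R ∈ D n := by
    filter_upwards [h, hU (eventually_gt_atTop m)] with n hn hnm
    have hdom := hn.2 {m} (by simpa using hm) (by simpa using hnm)
    obtain ⟨a, ha, R0, hR0, -, hR0m⟩ := dom_hit hdom 0 {m} (by simp) (by simp)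
    rw [Finset.mem_singleton] at ha
    rw [ha] at hR0m
    exact ⟨R0, Finset.mem_range.2 ((hb n R0).trans_lt hR0m), hR0⟩
  have hlim : ∀ W : Finset ℕ, (∀ᶠ n in U, ∃ R ∈ W, R ∈ D n) → ∃ R ∈ W, ∀ᶠ n in U, R ∈ D n := by
    intro W hW
    have h1 : (⋃ R ∈ (W : Set ℕ), {n | R ∈ D n}) ∈ U := by
      refine mem_of_superset hW fun n hn => ?_
      obtain ⟨R, hR, hRn⟩ := hn
      exact Set.mem_biUnion (Finset.mem_coe.2 hR) hRn
    rw [Ultrafilter.finite_biUnion_mem_iff W.finite_toSet] at h1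
    obtain ⟨R, hR, h2⟩ := h1
    exact ⟨R, Finset.mem_coe.1 hR, h2⟩
  refine ⟨{R | ∀ᶠ n in U, R ∈ D n}, ?_, ?_, ?_⟩
  · rw [Set.infinite_iff_exists_gt]
    intro β
    obtain ⟨β', hβ'⟩ := hwin (β + 1)
    obtain ⟨R, hR, hRU⟩ := hlim _ hβ'
    exact ⟨R, hRU, by rw [Finset.mem_Ico] at hR; omega⟩
  · intro T hT
    have h1 : ∀ᶠ n in U, ∀ R ∈ T, R ∈ D n := by
      rw [eventually_all_finset]
      exact fun R hR => hT (Finset.mem_coe.2 hR)
    obtain ⟨n, hn1, hn2⟩ := (h1.and h).exists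
    exact h𝓓 _ hn2.1 _ hn1
  · obtain ⟨R, hR, hRU⟩ := hlim _ hwin0
    exact ⟨R, hRU, Finset.mem_range.1 hR⟩

/-- No infinite set has all its finite subsets in the family. -/
theorem exF_no_inf {𝓚 : Set (Finset ℕ)} (hK : IsRegular 𝓚) (m : ℕ) : ∀ I : Set ℕ, I.Infinite →
    m ∈ I → (∀ T : Finset ℕ, (T : Set ℕ) ⊆ I → T ∈ exF 𝓚) → False := by
  classical
  induction m using Nat.strong_induction_on with
  | _ m ih =>
    intro I hI hm hT
    -- cut below m
    set J : Set ℕ := {a ∈ I | m ≤ a} with hJ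
    have hJinf : J.Infinite := by
      intro hfin
      refine hI ((hfin.union (Set.finite_lt_nat m)).subset fun a ha => ?_)
      by_cases h : m ≤ a
      · exact Or.inl ⟨ha, h⟩
      · exact Or.inr (by simpa using h)
    have hmJ : m ∈ J := ⟨hm, le_rfl⟩
    have hTJ : ∀ T : Finset ℕ, (T : Set ℕ) ⊆ J → T ∈ exF 𝓚 := fun T h =>
      hT T (h.trans fun a ha => ha.1)
    let A : ℕ → Finset ℕ := fun n => (Finset.range n).filter (· ∈ J)
    have hA : ∀ n, (A n : Set ℕ) ⊆ J := fun n a ha => by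
      simp only [A, Finset.coe_filter, Set.mem_ofPred_eq] at ha
      exact ha.2
    have hAB : ∀ n (B : Finset ℕ), (B : Set ℕ) ⊆ J → (∀ a ∈ B, a < n) → B ⊆ A n := by
      intro n B h1 h2 a ha
      simp only [A, Finset.mem_filter, Finset.mem_range]
      exact ⟨h2 a ha, h1 (Finset.mem_coe.2 ha)⟩
    have hcard : ∀ᶠ n in atTop, 1 < (A n).card := by
      obtain ⟨B, hB1, hB2⟩ := hJinf.exists_subset_card_eq 2
      filter_upwards [eventually_gt_atTop (B.sup id)] with n hn
      have h1 := Finset.card_le_card (hAB n B hB1 fun a ha => by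
        have : a ≤ B.sup id := Finset.le_sup (f := id) ha
        omega)
      omega
    set U : Ultrafilter ℕ := hyperfilter ℕ with hUdef
    have hU : (U : Filter ℕ) ≤ atTop := by
      rw [← Nat.cofinite_eq_atTop]
      exact hyperfilter_le_cofinite
    have hcases : ∀ᶠ n in U, (∃ C ∈ exF 𝓚, ∃ c, Dom (ev c) C (A n)) ∨
        ∃ C ∈ 𝓚, Dom od C (A n) := by
      filter_upwards [hU hcard] with n hn
      rcases exF_cases (hTJ _ (hA n)) with h | h | h
      · omega
      · exact Or.inl h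
      · exact Or.inr h
    rw [Ultrafilter.eventually_or] at hcases
    rcases hcases with h | h
    · -- blocks of the first kind
      have h' : ∀ n, ∃ (C : Finset ℕ) (c : ℕ), (∃ C ∈ exF 𝓚, ∃ c, Dom (ev c) C (A n)) →
          C ∈ exF 𝓚 ∧ Dom (ev c) C (A n) := by
        intro n
        by_cases hn : ∃ C ∈ exF 𝓚, ∃ c, Dom (ev c) C (A n)
        · obtain ⟨C, hC, c, hd⟩ := hn
          exact ⟨C, c, fun _ => ⟨hC, hd⟩⟩
        · exact ⟨∅, 0, fun h => absurd h hn⟩
      choose D c hDc using h'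
      obtain ⟨C, hC1, hC2, R, hR1, hR2⟩ := exists_limit (exF 𝓚) (fun D hD D' hD' =>
        exF_hered hD hD') J hJinf m hmJ U hU D (fun n => ev (c n))
        (fun n R => (le_ev _ _).2) (fun β => ⟨ev m β + 1, fun n R hR R' hR' => by
          have h1 := (le_ev (c n) R).1
          have h2 : Nat.pair (c n) R' ≤ Nat.pair m β := by
            have e1 : Nat.pair (c n) R' ≤ Nat.pair m R' := by
              rcases eq_or_lt_of_le (show c n ≤ m by omega) with e | e
              · rw [e]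
              · exact (Nat.pair_lt_pair_left R' e).le
            exact e1.trans (Nat.pair_lt_pair_right m hR').le
          unfold ev at *
          omega⟩) (by
        filter_upwards [h] with n hn
        exact ⟨(hDc n hn).1, fun B hB1 hB2 => dom_subset (hDc n hn).2 (hAB n B hB1 hB2)⟩)
      exact ih R hR2 C hC1 hR1 hC2
    · -- blocks of the second kind
      have h' : ∀ n, ∃ (C : Finset ℕ), (∃ C ∈ 𝓚, Dom od C (A n)) → C ∈ 𝓚 ∧ Dom od C (A n) := by
        intro n
        by_cases hn : ∃ C ∈ 𝓚, Dom od C (A n)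
        · obtain ⟨C, hC, hd⟩ := hn
          exact ⟨C, fun _ => ⟨hC, hd⟩⟩
        · exact ⟨∅, fun h => absurd h hn⟩
      choose D hD using h'
      obtain ⟨C, hC1, hC2, -⟩ := exists_limit 𝓚 (fun D hD D' hD' =>
        hK.hereditary D hD D' hD') J hJinf m hmJ U hU D (fun _ => od)
        (fun n R => by unfold od; omega) (fun β => ⟨od β, fun n R hR R' hR' => by
          unfold od; omega⟩) (by
        filter_upwards [h] with n hn
        exact ⟨(hD n hn).1, fun B hB1 hB2 => dom_subset (hD n hn).2 (hAB n B hB1 hB2)⟩)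
      obtain ⟨T, hT1, hT2⟩ := TPart.regular_no_inf hK C hC1
      exact hT2 (hC2 T hT1)

theorem exF_regular {𝓚 : Set (Finset ℕ)} (hK : IsRegular 𝓚) : IsRegular (exF 𝓚) := by
  classical
  refine TPart.regular_of ?_ ?_ ?_ ?_
  · intro F hF F' hF'
    exact exF_hered hF hF'
  · intro F hF φ hφ hφ'
    rcases exF_cases hF with h1 | ⟨C, hC, c, h1⟩ | ⟨C, hC, h1⟩
    · exact exF_small (Finset.card_image_le.trans h1)
    · exact exF_even hC (dom_image h1 φ hφ.injOn hφ')
    · exact exF_odd hC (dom_image h1 φ hφ.injOn hφ')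
  · intro I hI
    by_contra hcon
    push Not at hcon
    obtain ⟨m, hm⟩ := hI.nonempty
    exact exF_no_inf hK m I hI hm hcon
  · intro n
    exact exF_small (by simp)

end Pool.Agent.Comb7f333f.XPart
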