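import Pool.Agent.Lib.MP_7f333f_an.Ex.Capture
import Pool.Agent.Lib.MP_7f333f_an.Ex.Reg

set_option autoImplicit false

/-!
The operators between the combinatorial spaces which are given by the blocks.
-/

namespace Pool.Agent.Comb7f333f.XPart

open Finset

/-- The map which sends the basis to the averages over the blocks `b R`. -/
noncomputable def up (b : ℕ → ℕ) : (ℕ →₀ ℝ) →ₗ[ℝ] (ℕ →₀ ℝ) :=
  Finsupp.linearCombination ℝ fun R => uv (b R)

theorem up_eq (b : ℕ → ℕ) (f : ℕ →₀ ℝ) : up b f = bsum (Finsupp.mapDomain b f) := by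
  unfold up bsum
  rw [Finsupp.linearCombination_mapDomain]
  rfl

open Classical in
/-- The image of a basis vector under the sums over the blocks. -/
noncomputable def dv (b : ℕ → ℕ) (k : ℕ) : ℕ →₀ ℝ :=
  if h : ∃ R, k ∈ blk (b R) then Finsupp.single h.choose 1 else 0

theorem dv_apply {b : ℕ → ℕ} (hb : Function.Injective b) (k R : ℕ) :
    dv b k R = if k ∈ blk (b R) then 1 else 0 := by
  classical
  unfold dv
  by_cases h : ∃ R, k ∈ blk (b R)
  · rw [dif_pos h, Finsupp.single_apply]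
    have h1 := h.choose_spec
    by_cases h2 : k ∈ blk (b R)
    · rw [if_pos h2, if_pos (hb (blk_inj h1 h2))]
    · rw [if_neg h2, if_neg]
      intro h3
      rw [h3] at h1
      exact h2 h1
  · rw [dif_neg h, if_neg (fun h2 => h ⟨R, h2⟩)]
    rfl

/-- The sums over the blocks. -/
noncomputable def dn (b : ℕ → ℕ) : (ℕ →₀ ℝ) →ₗ[ℝ] (ℕ →₀ ℝ) :=
  Finsupp.linearCombination ℝ (dv b)

theorem dn_apply {b : ℕ → ℕ} (hb : Function.Injective b) (a : ℕ →₀ ℝ) (R : ℕ) :
    dn b a R = ∑ k ∈ blk (b R), a k := by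
  classical
  unfold dn
  rw [Finsupp.linearCombination_apply, Finsupp.sum, Finsupp.finsetSum_apply]
  have h1 : ∀ k ∈ a.support, (a k • dv b k) R = if k ∈ blk (b R) then a k else 0 := by
    intro k _
    rw [Finsupp.smul_apply, dv_apply hb, smul_eq_mul]
    split_ifs <;> simp
  rw [sum_congr rfl h1, ← sum_filter]
  refine sum_subset (fun k hk => (mem_filter.1 hk).2) fun k hk hk' => ?_
  by_contra hne
  exact hk' (mem_filter.2 ⟨Finsupp.mem_support_iff.2 hne, hk⟩)

theorem dn_uv {b : ℕ → ℕ} (hb : Function.Injective b) (R : ℕ) :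
    dn b (uv (b R)) = Finsupp.single R 1 := by
  classical
  ext R'
  rw [dn_apply hb, Finsupp.single_apply]
  by_cases h : R = R'
  · rw [if_pos h, ← h, sum_uv]
  · rw [if_neg h, sum_uv_ne fun h' => h (hb h').symm]

theorem dn_uv_ne {b : ℕ → ℕ} (hb : Function.Injective b) {n : ℕ} (h : ∀ R, b R ≠ n) :
    dn b (uv n) = 0 := by
  ext R'
  rw [dn_apply hb, sum_uv_ne (h R')]
  rfl

theorem dn_up {b : ℕ → ℕ} (hb : Function.Injective b) (f : ℕ →₀ ℝ) : dn b (up b f) = f := by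
  have h1 : (dn b).comp (up b) = LinearMap.id := by
    refine Finsupp.lhom_ext' fun R => LinearMap.ext_ring ?_
    show dn b (up b (Finsupp.single R 1)) = Finsupp.single R 1
    unfold up
    rw [Finsupp.linearCombination_single, one_smul, dn_uv hb]
  exact congrArg (fun L : (ℕ →₀ ℝ) →ₗ[ℝ] (ℕ →₀ ℝ) => L f) h1

theorem dn_up_ne {b b' : ℕ → ℕ} (hb : Function.Injective b) (h : ∀ R R', b R ≠ b' R')
    (f : ℕ →₀ ℝ) : dn b (up b' f) = 0 := by
  have h1 : (dn b).comp (up b') = 0 := by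
    refine Finsupp.lhom_ext' fun R => LinearMap.ext_ring ?_
    show dn b (up b' (Finsupp.single R 1)) = 0
    unfold up
    rw [Finsupp.linearCombination_single, one_smul, dn_uv_ne hb fun R' => h R' R]
  exact congrArg (fun L : (ℕ →₀ ℝ) →ₗ[ℝ] (ℕ →₀ ℝ) => L f) h1

/-- The sums over the blocks do not increase the norms. -/
theorem combNorm_dn {𝓕 𝓖 : Set (Finset ℕ)} {b : ℕ → ℕ} (hb : Function.Injective b)
    (h : ∀ C ∈ 𝓖, (C.biUnion fun R => blk (b R)) ∈ 𝓕) (a : ℕ →₀ ℝ) :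
    combNorm 𝓖 (dn b a) ≤ combNorm 𝓕 a := by
  classical
  refine combNorm_le _ (combNorm_nonneg _ _) fun C hC => ?_
  refine le_trans ?_ (le_combNorm a (h C hC))
  rw [sum_biUnion]
  · refine sum_le_sum fun R _ => ?_
    rw [dn_apply hb]
    exact abs_sum_le_sum_abs _ _
  · intro R _ R' _ hRR'
    rw [Function.onFun, disjoint_left]
    intro k hk hk'
    exact hRR' (hb (blk_inj hk hk'))

theorem mem_exF_blocks_ev {𝓚 : Set (Finset ℕ)} {C : Finset ℕ} (hC : C ∈ exF 𝓚) (c : ℕ) :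
    (C.biUnion fun R => blk (ev c R)) ∈ exF 𝓚 := exF_even hC (dom_blocks _ _)

theorem mem_exF_blocks_od {𝓚 : Set (Finset ℕ)} {C : Finset ℕ} (hC : C ∈ 𝓚) :
    (C.biUnion fun R => blk (od R)) ∈ exF 𝓚 := exF_odd hC (dom_blocks _ _)

/-- The norm of a sum of images. -/
theorem combNorm_sum_up {𝓚 : Set (Finset ℕ)} (hK : IsRegular 𝓚) (s : Finset ℕ)
    (f : ℕ → (ℕ →₀ ℝ)) (B : ℝ) (hB : 0 ≤ B) (hf : ∀ c ∈ s, combNorm (exF 𝓚) (f c) ≤ B) :
    combNorm (exF 𝓚) (∑ c ∈ s, up (ev c) (f c)) ≤ 2 * B := by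
  classical
  set g : ℕ →₀ ℝ := ∑ c ∈ s, Finsupp.mapDomain (ev c) (f c) with hg
  have h1 : ∑ c ∈ s, up (ev c) (f c) = bsum g := by
    rw [hg]
    unfold bsum
    rw [map_sum]
    exact sum_congr rfl fun c _ => up_eq _ _
  have hmd : ∀ c c' R, Finsupp.mapDomain (ev c) (f c) (ev c' R) = if c = c' then f c R else 0 := by
    intro c c' R
    by_cases h : c = c'
    · rw [if_pos h, ← h, Finsupp.mapDomain_apply (ev_injective c)]
    · rw [if_neg h]
      refine Finsupp.mapDomain_of_notMem_range _ _ ?_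
      rintro ⟨R', hR'⟩
      exact h (ev_eq hR').1
  have hgev : ∀ c R, g (ev c R) = if c ∈ s then f c R else 0 := by
    intro c R
    rw [hg, Finsupp.finsetSum_apply]
    simp only [hmd]
    rw [sum_ite_eq']
  have hgod : ∀ k, g (od k) = 0 := by
    intro k
    rw [hg, Finsupp.finsetSum_apply]
    refine sum_eq_zero fun c _ => Finsupp.mapDomain_of_notMem_range _ _ ?_
    rintro ⟨R', hR'⟩
    exact ev_ne_od _ _ _ hR'
  rw [h1]
  refine combNorm_bsum g B hB ?_ ?_ ?_
  · intro n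
    rcases ev_or_od n with ⟨c, R, rfl⟩ | ⟨k, rfl⟩
    · rw [hgev]
      split_ifs with h
      · exact (abs_le_combNorm (exF_regular hK) _ _).trans (hf c h)
      · rw [abs_zero]; exact hB
    · rw [hgod, abs_zero]; exact hB
  · intro c C hC
    simp only [hgev]
    split_ifs with h
    · exact (le_combNorm _ hC).trans (hf c h)
    · simpa using hB
  · intro C _
    simp only [hgod]
    simpa using hB

/-- The norm of an image of the space of the given family. -/
theorem combNorm_up_od {𝓚 : Set (Finset ℕ)} (hK : IsRegular 𝓚) (f : ℕ →₀ ℝ) :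
    combNorm (exF 𝓚) (up od f) ≤ 2 * combNorm 𝓚 f := by
  classical
  rw [up_eq]
  have hev : ∀ c R, Finsupp.mapDomain od f (ev c R) = 0 := by
    intro c R
    refine Finsupp.mapDomain_of_notMem_range _ _ ?_
    rintro ⟨R', hR'⟩
    exact ev_ne_od _ _ _ hR'.symm
  have hod : ∀ k, Finsupp.mapDomain od f (od k) = f k := fun k =>
    Finsupp.mapDomain_apply od_injective _ _
  have h0 := combNorm_nonneg 𝓚 f
  refine combNorm_bsum _ _ h0 ?_ ?_ ?_
  · intro n
    rcases ev_or_od n with ⟨c, R, rfl⟩ | ⟨k, rfl⟩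
    · rw [hev, abs_zero]; exact h0
    · rw [hod]
      exact abs_le_combNorm hK _ _
  · intro c C _
    simp only [hev]
    simpa using h0
  · intro C hC
    simp only [hod]
    exact le_combNorm _ hC

/-! ### The extensions -/

/-- Extension of a bounded map. -/
theorem exists_ext {𝓕 𝓖 : Set (Finset ℕ)} {X Y : Type*} [NormedAddCommGroup X] [NormedSpace ℝ X]
    [NormedAddCommGroup Y] [NormedSpace ℝ Y] [CompleteSpace Y] {e : ℕ → X} {e' : ℕ → Y}
    (hX : IsCombSpace 𝓕 e) (hY : IsCombSpace 𝓖 e') (L : (ℕ →₀ ℝ) →ₗ[ℝ] (ℕ →₀ ℝ)) (C : ℝ)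
    (hL : ∀ a, combNorm 𝓖 (L a) ≤ C * combNorm 𝓕 a) :
    ∃ T : X →L[ℝ] Y, (∀ a, T (Finsupp.linearCombination ℝ e a) =
      Finsupp.linearCombination ℝ e' (L a)) ∧ ∀ x, ‖T x‖ ≤ C * ‖x‖ := by
  have h1 : ∀ a, ‖((Finsupp.linearCombination ℝ e').comp L) a‖ ≤
      C * ‖Finsupp.linearCombination ℝ e a‖ := by
    intro a
    rw [hX.norm_eq]
    show ‖Finsupp.linearCombination ℝ e' (L a)‖ ≤ _
    rw [hY.norm_eq]
    exact hL a
  refine ⟨((Finsupp.linearCombination ℝ e').comp L).extendOfNorm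
    (Finsupp.linearCombination ℝ e), fun a => ?_, fun x => ?_⟩
  · exact LinearMap.extendOfNorm_eq hX.dense ⟨C, h1⟩ a
  · exact LinearMap.norm_extendOfNorm_apply_le hX.dense C h1 x

/-- The given space is complemented in the new one. -/
theorem exists_UW {𝓚 : Set (Finset ℕ)} (hK : IsRegular 𝓚) {X Y : Type*} [NormedAddCommGroup X]
    [NormedSpace ℝ X] [CompleteSpace X] [NormedAddCommGroup Y] [NormedSpace ℝ Y] [CompleteSpace Y]
    {e : ℕ → X} {e' : ℕ → Y} (hX : IsCombSpace (exF 𝓚) e) (hY : IsCombSpace 𝓚 e') :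
    ∃ (U : Y →L[ℝ] X) (W : X →L[ℝ] Y), ∀ y, W (U y) = y := by
  obtain ⟨U, hU, -⟩ := exists_ext hY hX (up od) 2 (combNorm_up_od hK)
  obtain ⟨W, hW, -⟩ := exists_ext hX hY (dn od) 1 (fun a => by
    rw [one_mul]
    exact combNorm_dn od_injective (fun C hC => mem_exF_blocks_od hC) a)
  refine ⟨U, W, fun y => ?_⟩
  refine hY.dense.induction_on y (isClosed_eq (W.continuous.comp U.continuous) continuous_id)
    fun a => ?_
  rw [hU, hW, dn_up od_injective]

end Pool.Agent.Comb7f333f.XPart
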