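import Pool.Agent.Lib.MP_7f333f_an.Ex.CZ
import Pool.Agent.Lib.MP_7f333f_an.Iso

set_option autoImplicit false

/-!
Odd representations on the spaces which are isomorphic to the space of their null sequences.
-/

namespace Pool.Agent.Comb7f333f.XPart

open Filter Topology ZeroAtInfty

section

variable {X : Type*} [NormedAddCommGroup X] [NormedSpace ℝ X]
  {G : Type*} [Group G] {I : Type*} [MulAction G I]

theorem exists_oddRep_C [Countable I] [Infinite I] (z : G) (hz : ∀ g, g * z = z * g)
    (hzz : z * z = 1) (hfree : ∀ i : I, z • i ≠ i) :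
    ∃ π : G →* (C₀(ℕ, X) →ₗ[ℝ] C₀(ℕ, X)), (∀ g f, ‖π g f‖ ≤ ‖f‖) ∧ (∀ f, π z f = -f) ∧
      ∀ f, ∀ ε > 0, ∃ F : Finset I, ∀ g : G, (∀ i ∈ F, g • i = i) → ‖π g f - f‖ < ε := by
  classical
  obtain ⟨κ, sg, sct, hκz, hsgz, hκs, hsgs, hall⟩ := exists_transversal (I := I) hzz hfree
  have hsgabs : ∀ i, ‖sg i‖ = 1 := by
    intro i
    rw [Real.norm_eq_abs]
    rcases hall i with h | h <;> rw [h.2] <;> simp
  have hsctinj : Function.Injective sct := fun a b hab => by rw [← hκs a, ← hκs b, hab]
  have hκtend : Tendsto κ cofinite atTop := by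
    rw [← Nat.cofinite_eq_atTop]
    refine Filter.Tendsto.cofinite_of_finite_preimage_singleton fun k => ?_
    refine ((Set.finite_singleton (sct k)).union (Set.finite_singleton (z • sct k))).subset ?_
    intro i hi
    have hi' : κ i = k := hi
    rcases hall i with h | h
    · left; rw [← hi']; exact h.1
    · right; rw [← hi']; exact h.1
  have hscttend : Tendsto sct atTop cofinite := by
    rw [← Nat.cofinite_eq_atTop]
    exact hsctinj.tendsto_cofinite
  have hσ : ∀ g : G, Tendsto (fun k => κ (g⁻¹ • sct k)) atTop atTop := fun g =>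
    hκtend.comp ((MulAction.injective g⁻¹).tendsto_cofinite.comp hscttend)
  -- the odd function of a sequence
  let od : C₀(ℕ, X) → I → X := fun f i => sg i • f (κ i)
  have hodz : ∀ f i, od f (z • i) = - od f i := by
    intro f i
    show sg (z • i) • f (κ (z • i)) = - (sg i • f (κ i))
    rw [hκz, hsgz, neg_smul]
  have hods : ∀ f k, od f (sct k) = f k := by
    intro f k
    show sg (sct k) • f (κ (sct k)) = f k
    rw [hκs, hsgs, one_smul]
  have hodn : ∀ f i, ‖od f i‖ = ‖f (κ i)‖ := by
    intro f i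
    show ‖sg i • f (κ i)‖ = _
    rw [norm_smul, hsgabs, one_mul]
  let act : G → C₀(ℕ, X) →L[ℝ] C₀(ℕ, X) := fun g =>
    toC (fun k => sg (g⁻¹ • sct k) • evC (κ (g⁻¹ • sct k)))
      (fun f => by
        rw [tendsto_zero_iff_norm_tendsto_zero]
        have h1 := ((tendsto_C f).comp (hσ g)).norm
        rw [norm_zero] at h1
        refine h1.congr fun k => ?_
        exact (hodn f _).symm)
      1 zero_le_one (fun k f => by
        rw [one_mul]
        exact (hodn f _).le.trans (norm_apply_le f _))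
  have hact : ∀ g f k, act g f k = od f (g⁻¹ • sct k) := fun _ _ _ => rfl
  have hactod : ∀ g f i, od (act g f) i = od f (g⁻¹ • i) := by
    intro g f i
    have h1 : od (act g f) i = sg i • od f (g⁻¹ • sct (κ i)) := rfl
    rcases hall i with h | h
    · rw [h1, h.2, one_smul, ← h.1]
    · rw [h1, h.2, neg_one_smul, ← hodz, smul_smul, ← hz, mul_smul, ← h.1]
  let π : G →* (C₀(ℕ, X) →ₗ[ℝ] C₀(ℕ, X)) :=
    { toFun := fun g => (act g).toLinearMap
      map_one' := by
        ext f k
        show act 1 f k = f k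
        rw [hact, inv_one, one_smul, hods]
      map_mul' := fun g h => by
        ext f k
        show act (g * h) f k = act g (act h f) k
        rw [hact, hact, hactod, mul_inv_rev, mul_smul] }
  have hπ : ∀ g f k, π g f k = od f (g⁻¹ • sct k) := fun _ _ _ => rfl
  refine ⟨π, fun g f => ?_, fun f => ?_, fun f ε hε => ?_⟩
  · refine norm_le_C _ (norm_nonneg f) fun k => ?_
    rw [hπ, hodn]
    exact norm_apply_le f _
  · ext k
    have h1 : z⁻¹ = z := inv_eq_of_mul_eq_one_left hzz
    rw [hπ, h1, hodz, hods]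
    rfl
  · -- the continuity
    have h1 := (tendsto_C f).norm
    rw [norm_zero] at h1
    obtain ⟨n, hn⟩ := eventually_atTop.mp
      (h1.eventually (gt_mem_nhds (show (0 : ℝ) < ε / 4 by positivity)))
    refine ⟨(Finset.range n).image sct, fun g hg => ?_⟩
    have hfix : ∀ k < n, g • sct k = sct k := fun k hk =>
      hg _ (Finset.mem_image_of_mem _ (Finset.mem_range.2 hk))
    have hfix' : ∀ k < n, g⁻¹ • sct k = sct k := fun k hk => by
      rw [inv_smul_eq_iff, hfix k hk]
    refine lt_of_le_of_lt (norm_le_C _ (show 0 ≤ ε / 2 by positivity) fun k => ?_) (by linarith)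
    show ‖π g f k - f k‖ ≤ ε / 2
    by_cases hk : k < n
    · rw [hπ, hfix' k hk, hods, sub_self, norm_zero]
      positivity
    · have hk' : n ≤ κ (g⁻¹ • sct k) := by
        by_contra hcon
        push Not at hcon
        have h2 : κ (sct k) < n := by
          rcases hall (g⁻¹ • sct k) with h | h
          · have h3 := hfix _ hcon
            rw [← h.1, smul_inv_smul] at h3
            rw [h3]
            exact hcon
          · have h3 := hfix _ hcon
            have h4 : z • g • sct (κ (g⁻¹ • sct k)) = g • z • sct (κ (g⁻¹ • sct k)) := by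
              rw [smul_smul, smul_smul, hz]
            have h5 : sct k = z • sct (κ (g⁻¹ • sct k)) := by
              have h6 := congrArg (g • ·) h.1
              simp only [smul_inv_smul] at h6
              rw [← h4, h3] at h6
              exact h6
            rw [h5, hκz, hκs]
            exact hcon
        rw [hκs] at h2
        exact hk h2
      refine (norm_sub_le _ _).trans ?_
      rw [hπ, hodn]
      have h2 := (hn _ hk').le
      have h3 := (hn k (not_lt.mp hk)).le
      linarith

theorem exists_oddRep [Countable I] [Infinite I] (T : X ≃L[ℝ] C₀(ℕ, X)) (z : G)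
    (hz : ∀ g, g * z = z * g) (hzz : z * z = 1) (hfree : ∀ i : I, z • i ≠ i) :
    ∃ (π : G →* (X →ₗ[ℝ] X)) (K : ℝ), (∀ g x, ‖π g x‖ ≤ K * ‖x‖) ∧ (∀ x, π z x = -x) ∧
      ∀ x, ∀ ε > 0, ∃ F : Finset I, ∀ g : G, (∀ i ∈ F, g • i = i) → ‖π g x - x‖ < ε := by
  obtain ⟨π, h1, h2, h3⟩ := exists_oddRep_C (X := X) (I := I) z hz hzz hfree
  obtain ⟨A, hA0, hA'⟩ : ∃ A : ℝ, 0 ≤ A ∧ ∀ f, ‖T.symm f‖ ≤ A * ‖f‖ :=
    ⟨_, norm_nonneg _, fun f => (T.symm : C₀(ℕ, X) →L[ℝ] X).le_opNorm f⟩
  obtain ⟨B, hB0, hB'⟩ : ∃ B : ℝ, 0 ≤ B ∧ ∀ x, ‖T x‖ ≤ B * ‖x‖ :=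
    ⟨_, norm_nonneg _, fun x => (T : X →L[ℝ] C₀(ℕ, X)).le_opNorm x⟩
  let π' : G →* (X →ₗ[ℝ] X) :=
    { toFun := fun g => T.symm.toLinearEquiv.toLinearMap.comp
        ((π g).comp T.toLinearEquiv.toLinearMap)
      map_one' := by
        ext x
        show T.symm (π 1 (T x)) = x
        rw [map_one, Module.End.one_apply, T.symm_apply_apply]
      map_mul' := fun g h => by
        ext x
        show T.symm (π (g * h) (T x)) = T.symm (π g (T (T.symm (π h (T x)))))
        rw [T.apply_symm_apply, map_mul, Module.End.mul_apply] }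
  have hπ' : ∀ g x, π' g x = T.symm (π g (T x)) := fun _ _ => rfl
  refine ⟨π', A * B, fun g x => ?_, fun x => ?_, fun x ε hε => ?_⟩
  · rw [hπ']
    refine (hA' _).trans ?_
    rw [mul_assoc]
    exact mul_le_mul_of_nonneg_left ((h1 g _).trans (hB' x)) hA0
  · rw [hπ', h2, map_neg, T.symm_apply_apply]
  · obtain ⟨F, hF⟩ := h3 (T x) (ε / (A + 1)) (by positivity)
    refine ⟨F, fun g hg => ?_⟩
    have e1 : π' g x - x = T.symm (π g (T x) - T x) := by
      rw [hπ', map_sub, T.symm_apply_apply]
    rw [e1]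
    refine (hA' _).trans_lt ?_
    have e2 := hF g hg
    have e3 : A * ‖π g (T x) - T x‖ ≤ A * (ε / (A + 1)) :=
      mul_le_mul_of_nonneg_left e2.le hA0
    refine e3.trans_lt ?_
    rw [mul_div_assoc', div_lt_iff₀ (by positivity)]
    nlinarith

end

end Pool.Agent.Comb7f333f.XPart
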